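import Pool.Agent.helper5.SYM.SpecB

set_option autoImplicit false
set_option linter.unusedVariables false

namespace Pool.Agent.SYM
open Finset CT Polynomial

theorem CNX : CNX_stmt := by
  classical
  intro V _ _ G v hG hn hC2
  have hG' : G.IsRegularOfDegree 4 := by
    intro u
    rw [← hG u, Nat.card_eq_fintype_card, ← SimpleGraph.card_neighborSet_eq_degree]
    rfl
  have hedge : 3 ≤ Nat.card (decompletion G v).edgeSet := CT.card_edges V G v hG' (by omega)
  obtain ⟨T, hT⟩ : ∃ T, SpTree (decompletion G v) T := by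
    by_contra hno
    rw [not_exists] at hno
    apply hC2
    have hz : ∀ α : (decompletion G v).edgeSet → ZMod 2, graphPoly (decompletion G v) α = 0 := by
      intro α
      unfold graphPoly
      rw [Finset.filter_false_of_mem (fun T _ => hno T), Finset.sum_empty]
    have hnum : numZeros (decompletion G v) (ZMod 2) = 2 ^ Nat.card (decompletion G v).edgeSet := by
      unfold numZeros
      rw [Nat.card_congr (Equiv.subtypeUnivEquiv hz), Nat.card_fun, Nat.card_zmod]
    refine ⟨2 ^ (Nat.card (decompletion G v).edgeSet - 2), ?_, ?_⟩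
    · rw [hnum, Nat.card_zmod, ← pow_add]
      congr 1; omega
    · rw [Nat.card_zmod]
      obtain ⟨m, hm⟩ : ∃ m, Nat.card (decompletion G v).edgeSet - 2 = m + 1 :=
        ⟨Nat.card (decompletion G v).edgeSet - 3, by omega⟩
      rw [hm, pow_succ]
      push_cast
      exact (Int.modEq_zero_iff_dvd).2 ⟨2 ^ m, by ring⟩
  have hH : (decompletion G v).Connected := by
    refine SimpleGraph.Connected.mono ?_ hT.connected
    intro x y hxy
    rw [SimpleGraph.fromEdgeSet_adj] at hxy
    obtain ⟨⟨a, _, ha⟩, _⟩ := hxy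
    have h1 := a.2
    rw [show ((a : Sym2 _)) = s(x, y) from ha] at h1
    exact h1
  -- a neighbour of v
  obtain ⟨w, hw⟩ : ∃ w, G.Adj v w := by
    have h4 := hG v
    have : Nonempty {w // G.Adj v w} := by
      by_contra hemp
      rw [not_nonempty_iff] at hemp
      rw [Nat.card_of_isEmpty] at h4
      omega
    obtain ⟨w⟩ := this
    exact ⟨w.1, w.2⟩
  have hwv : w ∈ ({v}ᶜ : Set V) := by
    intro h
    exact G.ne_of_adj hw (Set.mem_singleton_iff.1 h).symm
  have hreach : ∀ x : V, G.Reachable x w := by
    intro x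
    by_cases hx : x = v
    · rw [hx]; exact hw.reachable
    · have h1 := hH.preconnected ⟨x, hx⟩ ⟨w, hwv⟩
      exact h1.map (SimpleGraph.Embedding.induce ({v}ᶜ : Set V)).toHom
  have : Nonempty V := ⟨v⟩
  exact ⟨fun x y => (hreach x).trans (hreach y).symm⟩

end Pool.Agent.SYM
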