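import Pool.Agent.helper5.SYM.SpecB

set_option autoImplicit false
set_option linter.unusedVariables false

namespace Pool.Agent.SYM
open Finset CT Polynomial

theorem LNK3 (hN31 : N31_stmt) (hA1C : A1C_stmt) (hTRP : TRP_stmt) : LNK3_stmt := by
  classical
  intro V _ _ G v hG hn hC2
  have hG' : G.IsRegularOfDegree 4 := by
    intro u
    rw [← hG u, Nat.card_eq_fintype_card, ← SimpleGraph.card_neighborSet_eq_degree]
    rfl
  obtain ⟨e, he, h1, h2, h3⟩ := CT.E3 V G hG'
  have hLnd : (univ.erase v).toList.Nodup := Finset.nodup_toList _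
  have hLs : (univ.erase v).toList.toFinset = univ.erase v := Finset.toList_toFinset _
  have hvL : v ∉ (univ.erase v).toList := by
    rw [Finset.mem_toList]; exact Finset.notMem_erase v _
  set L := (univ.erase v).toList with hL
  have hodd := hA1C V G v e L hG hn he h1 h2 h3 hLnd hLs hC2
  obtain ⟨T, hT1, hT2, hT3⟩ := hTRP V G v e L he h1 h2 h3 hLnd hLs
  have hins : insert v L.toFinset = univ := by
    rw [hLs]; exact Finset.insert_erase (Finset.mem_univ v)
  have h31 := hN31 V v L e hLnd hvL (by rw [hins]; exact he)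
  have huniv : (L ++ [v]).toFinset = univ := by
    rw [List.toFinset_append, ← hins]
    ext x
    simp [or_comm]
  have hpf : pf (L ++ [v]).toFinset = (univ : Finset (V → Fin 3)) := by
    rw [huniv]
    ext t
    simp [pf]
  rw [hpf] at h31
  have hcard : N3 G = ((univ : Finset (V → Fin 3)).filter fun t => lps (L ++ [v]) e t = 3).card := by
    have e1 : Nat.card {t : V → Fin 3 // lps (L ++ [v]) e t = 3} =
        ((univ : Finset (V → Fin 3)).filter fun t => lps (L ++ [v]) e t = 3).card := by
      rw [Nat.card_eq_fintype_card, Fintype.card_subtype]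
    rw [← e1]
    unfold N3
    symm
    refine Nat.card_congr (Equiv.ofBijective
      (fun t : {t : V → Fin 3 // lps (L ++ [v]) e t = 3} =>
        (⟨T t.1, hT1 t.1, by rw [(hT3 t.1).1]; exact t.2⟩ :
          {τ : G.Dart → G.Dart // IsTS τ ∧ gav τ (fun _ => False) = 3})) ⟨?_, ?_⟩)
    · rintro ⟨t, ht⟩ ⟨t', ht'⟩ h
      have h4 : T t = T t' := congrArg Subtype.val h
      obtain ⟨w, _, hw⟩ := hT2 (T t') (hT1 t')
      exact Subtype.ext ((hw t h4).trans (hw t' rfl).symm)
    · rintro ⟨τ, hτ, hg⟩
      obtain ⟨t, ht, _⟩ := hT2 τ hτ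
      refine ⟨⟨t, ?_⟩, Subtype.ext ht⟩
      rw [← (hT3 t).1, ht]; exact hg
  rw [hcard, h31]
  exact hodd.add_even ⟨_, two_mul _⟩

end Pool.Agent.SYM
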