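import Pool.Agent.helper5.SYM.SpecA

set_option autoImplicit false
set_option linter.unusedVariables false

namespace Pool.Agent.SYM
open Finset CT Polynomial

lemma SC1_jv {D A : Type} [DecidableEq D] [AddCommGroup A] (par : A →+ ZMod 2) (e : D → D) (α : D → A)
    (x y : D) (β : A) (z : D) : par (jv e α x y β z) = jv e (fun d => par (α d)) x y (par β) z := by
  unfold jv
  split_ifs <;> simp

lemma SC1_smv {W A : Type} [DecidableEq W] [AddCommGroup A] (par : A →+ ZMod 2) (e : W × Fin 4 → W × Fin 4)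
    (α : W × Fin 4 → A) (u : W) (t : Fin 3) :
    (fun d => par (smv e α u t d)) = smv e (fun d => par (α d)) u t := by
  funext d
  unfold smv
  rw [SC1_jv, map_zero]
  congr 1
  funext z
  rw [SC1_jv, map_zero]

lemma SC1_NL {W : Type} [DecidableEq W] (r0 : ZMod 2) (L : List W) (e : W × Fin 4 → W × Fin 4) :
    NL (fun _ => r0) L e = r0 * NL (fun _ => 1) L e := by
  induction L generalizing e with
  | nil => simp [NL]
  | cons u L ih =>
    simp only [NL]
    rw [Finset.mul_sum]
    refine Finset.sum_congr rfl fun t _ => ?_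
    split_ifs
    · exact ih _
    · simp

/-- the number of circuits over the loops of one smoothing -/
lemma SC1_lsv {W A : Type} [DecidableEq W] [AddCommGroup A] [Finite A] (hWT : ∀ h : A, 1 ≤ wA h)
    (par : A →+ ZMod 2) (e : W × Fin 4 → W × Fin 4) (α : W × Fin 4 → A) (u : W) (t : Fin 3) :
    (ls e u t = 0 → lsv e α u t = 0) ∧
    (ls e u t = 1 → ∃ h : A, lsv e α u t = wA h ∧ vl e (fun d => par (α d)) u t = par h) ∧
    (ls e u t ≠ 0 → ls e u t ≠ 1 → 2 ≤ lsv e α u t) := by
  have hj : ∀ z, jv e (fun d => par (α d)) (u, (pr t).1) (u, (pr t).2.1) 0 z =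
      par (jv e α (u, (pr t).1) (u, (pr t).2.1) 0 z) := by
    intro z; rw [SC1_jv, map_zero]
  unfold ls lsv vl CT.lp lv
  by_cases c1 : e (u, (pr t).1) = (u, (pr t).2.1)
  · by_cases c2 : join e (u, (pr t).1) (u, (pr t).2.1) (u, (pr t).2.2.1) = (u, (pr t).2.2.2)
    · rw [if_pos c1, if_pos c2, if_pos c1, if_pos c2]
      refine ⟨fun h => by omega, fun h => by omega, fun _ _ => ?_⟩
      have h1 := hWT (α (u, (pr t).1) - 0)
      have h2 := hWT (jv e α (u, (pr t).1) (u, (pr t).2.1) 0 (u, (pr t).2.2.1) - 0)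
      omega
    · rw [if_pos c1, if_neg c2, if_pos c1, if_neg c2, if_pos c1, if_neg c2]
      refine ⟨fun h => by omega, fun _ => ⟨α (u, (pr t).1), by rw [sub_zero, add_zero], by rw [add_zero]⟩,
        fun _ h => by omega⟩
  · by_cases c2 : join e (u, (pr t).1) (u, (pr t).2.1) (u, (pr t).2.2.1) = (u, (pr t).2.2.2)
    · rw [if_neg c1, if_pos c2, if_neg c1, if_pos c2, if_neg c1, if_pos c2]
      refine ⟨fun h => by omega, fun _ => ⟨jv e α (u, (pr t).1) (u, (pr t).2.1) 0 (u, (pr t).2.2.1),
        by rw [sub_zero, zero_add], by rw [zero_add, hj]⟩, fun _ h => by omega⟩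
    · rw [if_neg c1, if_neg c2, if_neg c1, if_neg c2]
      exact ⟨fun _ => rfl, fun h => by omega, fun h => by omega⟩

theorem SC1 (hWT : WT_stmt) (hSMA : SMA_stmt) (hSC0 : SC0_stmt) : SC1_stmt := by
  intro W A _ _ _ Ω r0 R par L E e α hpar
  induction L generalizing e α with
  | nil =>
    intro _ _ hact hvol hΩ
    have hE : Act E e := by simpa [dts] using hact
    simp only [SA, F1, NL, mul_zero, zero_add]
    exact (hΩ e α hE hvol).2
  | cons u L ih =>
    intro hnd hE hact hvol hΩ
    rw [List.toFinset_cons] at hact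
    have huL : u ∉ L := (List.nodup_cons.1 hnd).1
    have hL : L.Nodup := (List.nodup_cons.1 hnd).2
    have hE' : ∀ x ∈ E, x.1 ∉ L := fun x hx h => hE x hx (List.mem_cons_of_mem _ h)
    have hE1 : ∀ x ∈ E, x.1 ≠ u := fun x hx h => hE x hx (by rw [h]; exact List.mem_cons_self)
    have hS := fun t => hSMA W A L.toFinset E e α u t (by rw [List.mem_toFinset]; exact huL) hE1 hact hvol
    simp only [SA, F1, NL]
    rw [Polynomial.finsetSum_coeff, Finset.mul_sum, ← Finset.sum_add_distrib]
    refine Finset.sum_congr rfl fun t _ => ?_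
    obtain ⟨s0, s1, s2⟩ := SC1_lsv (fun h => (hWT A h).2) par e α u t
    rw [Polynomial.coeff_X_pow_mul']
    by_cases h0 : ls e u t = 0
    · rw [if_pos h0, if_pos h0, s0 h0, if_pos (Nat.zero_le 1), Nat.sub_zero,
        ih (sm e u t) (smv e α u t) hL hE' (hS t).1 (hS t).2 hΩ, SC1_smv]
    · by_cases h1 : ls e u t = 1
      · rw [if_neg h0, if_neg h0, if_pos h1, add_zero]
        obtain ⟨h, e1, e2⟩ := s1 h1
        rw [e2, e1]
        by_cases hp : par h = 1
        · rw [(hpar h).2 hp, if_pos le_rfl, Nat.sub_self, hp, one_mul,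
            hSC0 W A Ω (fun _ => r0) L E (sm e u t) (smv e α u t) hL hE' (hS t).1 (hS t).2
              (fun e' α' h1 h2 => (hΩ e' α' h1 h2).1), SC1_NL]
        · have hw : wA h ≠ 1 := fun h' => hp ((hpar h).1 h')
          have hw1 := (hWT A h).2
          have hp0 : par h = 0 := by
            generalize par h = z at hp
            revert z; decide
          rw [if_neg (by omega), hp0]; simp
      · have := s2 h0 h1
        rw [if_neg h0, if_neg h0, if_neg h1, if_neg (by omega)]; simp

end Pool.Agent.SYM
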